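import Pool.Agent.helper14.AV.Spec

set_option autoImplicit false

namespace Pool.Agent.helper14.AV

/-- The adjacency of the joined graph. -/
def JOI_adj {V W : Type} (G : SimpleGraph V) (H : SimpleGraph W) (a : V) (b : W) :
    V ⊕ W → V ⊕ W → Prop
  | Sum.inl u, Sum.inl v => G.Adj u v
  | Sum.inr u, Sum.inr v => H.Adj u v
  | Sum.inl u, Sum.inr v => u = a ∧ v = b
  | Sum.inr v, Sum.inl u => u = a ∧ v = b

/-- The joined graph. -/
def JOI_graph {V W : Type} (G : SimpleGraph V) (H : SimpleGraph W) (a : V) (b : W) :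
    SimpleGraph (V ⊕ W) where
  Adj := JOI_adj G H a b
  symm := ⟨by
    rintro (x | x) (y | y) h
    · exact SimpleGraph.Adj.symm (G := G) h
    · exact h
    · exact h
    · exact SimpleGraph.Adj.symm (G := H) h⟩
  loopless := ⟨by
    rintro (x | x) h
    · exact G.loopless.irrefl x h
    · exact H.loopless.irrefl x h⟩

theorem JOI : JOI_stmt := by
  intro V W G H a b hG hH
  refine ⟨JOI_graph G H a b, ?_, ?_⟩
  · have h1 : ∀ u v : V, (JOI_graph G H a b).Reachable (Sum.inl u) (Sum.inl v) := by
      intro u v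
      let f : G →g JOI_graph G H a b := ⟨Sum.inl, fun h => h⟩
      exact (hG.preconnected u v).map f
    have h2 : ∀ u v : W, (JOI_graph G H a b).Reachable (Sum.inr u) (Sum.inr v) := by
      intro u v
      let f : H →g JOI_graph G H a b := ⟨Sum.inr, fun h => h⟩
      exact (hH.preconnected u v).map f
    have h3 : (JOI_graph G H a b).Reachable (Sum.inl a) (Sum.inr b) :=
      SimpleGraph.Adj.reachable (show JOI_adj G H a b (Sum.inl a) (Sum.inr b) from ⟨rfl, rfl⟩)
    have h4 : ∀ x : V ⊕ W, (JOI_graph G H a b).Reachable (Sum.inl a) x := by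
      rintro (x | x)
      · exact h1 a x
      · exact h3.trans (h2 b x)
    have : Nonempty (V ⊕ W) := ⟨Sum.inl a⟩
    exact ⟨fun x y => (h4 x).symm.trans (h4 y)⟩
  · ext z
    constructor
    · induction z using Sym2.ind with
      | _ x y =>
        intro h
        rw [SimpleGraph.mem_edgeSet] at h
        rcases x with x | x <;> rcases y with y | y
        · exact Or.inl (Or.inl ⟨s(x, y), h, rfl⟩)
        · obtain ⟨rfl, rfl⟩ : x = a ∧ y = b := h
          exact Or.inr rfl
        · obtain ⟨rfl, rfl⟩ : y = a ∧ x = b := h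
          exact Or.inr Sym2.eq_swap
        · exact Or.inl (Or.inr ⟨s(x, y), h, rfl⟩)
    · rintro ((⟨e, he, rfl⟩ | ⟨e, he, rfl⟩) | h)
      · induction e using Sym2.ind with
        | _ x y => exact he
      · induction e using Sym2.ind with
        | _ x y => exact he
      · rw [Set.mem_singleton_iff] at h
        rw [h, SimpleGraph.mem_edgeSet]
        exact ⟨rfl, rfl⟩

end Pool.Agent.helper14.AV
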