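import Pool.Agent.helper14.AV.Spec3

set_option autoImplicit false

namespace Pool.Agent.helper14.AV

theorem DS4_aff (p q a b z : ℝ × ℝ) (hz : z ∈ segment ℝ a b) :
    ∃ s t : ℝ, 0 ≤ s ∧ 0 ≤ t ∧ s + t = 1 ∧ D p q z = s * D p q a + t * D p q b := by
  obtain ⟨s, t, hs, ht, hst, rfl⟩ := hz
  refine ⟨s, t, hs, ht, hst, ?_⟩
  obtain rfl : t = 1 - s := by linarith
  unfold D
  simp only [Prod.fst_add, Prod.snd_add, Prod.smul_fst, Prod.smul_snd, smul_eq_mul]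
  ring

theorem DS4_pos (s t X Y : ℝ) (hs : 0 ≤ s) (ht : 0 ≤ t) (hst : s + t = 1) (hX : 0 < X)
    (hY : 0 < Y) : 0 < s * X + t * Y := by
  rcases hs.eq_or_lt with h | h
  · have : t = 1 := by linarith
    rw [← h, this]
    linarith
  · have h1 := mul_pos h hX
    have h2 := mul_nonneg ht hY.le
    linarith

theorem DS4_s1 (u v w : ℝ) (h : u * v ≤ 0) (h' : 0 < v * w) : u * w ≤ 0 := by
  by_contra hc
  have hc' : 0 < u * w := not_le.1 hc
  have h1 := mul_pos hc' h'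
  have h2 : u * w * (v * w) = (u * v) * (w * w) := by ring
  have h3 := mul_nonpos_of_nonpos_of_nonneg h (mul_self_nonneg w)
  linarith

theorem DS4_s2 (u v w : ℝ) (h : 0 < u * v) (h' : 0 < v * w) : 0 < u * w := by
  by_contra hc
  have hc' : u * w ≤ 0 := not_lt.1 hc
  have h1 := mul_pos h h'
  have h2 : u * v * (v * w) = (u * w) * (v * v) := by ring
  have h3 := mul_nonpos_of_nonpos_of_nonneg hc' (mul_self_nonneg v)
  linarith

theorem DS4_disj (p q a b c d : ℝ × ℝ) (σ : ℝ) (ha : 0 < σ * D p q a) (hb : 0 < σ * D p q b)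
    (hc : σ * D p q c ≤ 0) (hd : σ * D p q d ≤ 0) : Disjoint (segment ℝ a b) (segment ℝ c d) := by
  rw [Set.disjoint_left]
  intro z hz hz'
  obtain ⟨s, t, hs, ht, hst, h⟩ := DS4_aff p q a b z hz
  obtain ⟨s', t', hs', ht', hst', h'⟩ := DS4_aff p q c d z hz'
  have h1 := DS4_pos s t _ _ hs ht hst ha hb
  have h2 : σ * D p q z = s * (σ * D p q a) + t * (σ * D p q b) := by
    rw [h]
    ring
  have h3 : σ * D p q z = s' * (σ * D p q c) + t' * (σ * D p q d) := by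
    rw [h']
    ring
  have h4 := mul_nonpos_of_nonneg_of_nonpos hs' hc
  have h5 := mul_nonpos_of_nonneg_of_nonpos ht' hd
  linarith

/-- The sign on a long segment. -/
theorem DS4_sign {ι : Type} (P Q : ι → ℝ × ℝ) (hN : NSd P Q) (u j : ι) (hj : u ≠ j) (z : ℝ × ℝ)
    (hz : z ∈ segment ℝ (P j) (Q j)) : 0 < D (P u) (Q u) (P j) * D (P u) (Q u) z := by
  obtain ⟨s, t, hs, ht, hst, h⟩ := DS4_aff (P u) (Q u) (P j) (Q j) z hz
  have h1 := hN u j hj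
  have h0 : D (P u) (Q u) (P j) ≠ 0 := by
    intro h2
    rw [h2, zero_mul] at h1
    exact lt_irrefl _ h1
  have h2 : 0 < D (P u) (Q u) (P j) * D (P u) (Q u) (P j) := mul_self_pos.2 h0
  have h3 := DS4_pos s t _ _ hs ht hst h2 h1
  rw [h]
  have h4 : D (P u) (Q u) (P j) * (s * D (P u) (Q u) (P j) + t * D (P u) (Q u) (Q j)) =
      s * (D (P u) (Q u) (P j) * D (P u) (Q u) (P j)) +
        t * (D (P u) (Q u) (P j) * D (P u) (Q u) (Q j)) := by ring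
  rw [h4]
  exact h3

theorem DS4_zero {ι : Type} (P Q : ι → ℝ × ℝ) (u : ι) (z : ℝ × ℝ)
    (hz : z ∈ segment ℝ (P u) (Q u)) : D (P u) (Q u) z = 0 := by
  obtain ⟨s, t, _, _, _, h⟩ := DS4_aff (P u) (Q u) (P u) (Q u) z hz
  rw [h]
  unfold D
  ring

theorem DS4_swap {ι : Type} (P Q : ι → ℝ × ℝ) (u i j : ι) (h : SS P Q u i j) : SS P Q u j i := by
  unfold SS at *
  rw [mul_comm]
  exact h

theorem DS4_trans {ι : Type} (P Q : ι → ℝ × ℝ) (u i j l : ι) (h : SS P Q u i j)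
    (h' : SS P Q u j l) : SS P Q u i l :=
  DS4_s2 _ _ _ h h'

/-- One of the four easy cases. -/
theorem DS4_case {ι : Type} (P Q : ι → ℝ × ℝ) (hN : NSd P Q) (u i j l : ι) (hi : u ≠ i)
    (hj : u ≠ j) (hl : u ≠ l) (hS : SS P Q u i j) (hD : ¬ SS P Q u i l) (a b c d : ℝ × ℝ)
    (ha : a ∈ segment ℝ (P i) (Q i)) (hb : b ∈ segment ℝ (P j) (Q j))
    (hc : c ∈ segment ℝ (P u) (Q u)) (hd : d ∈ segment ℝ (P l) (Q l)) :
    Disjoint (segment ℝ a b) (segment ℝ c d) ∧ Disjoint (segment ℝ a b) (segment ℝ d c) := by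
  have h1 : 0 < D (P u) (Q u) (P i) * D (P u) (Q u) a := DS4_sign P Q hN u i hi a ha
  have h2 : 0 < D (P u) (Q u) (P i) * D (P u) (Q u) b :=
    DS4_s2 _ _ _ hS (DS4_sign P Q hN u j hj b hb)
  have h3 : D (P u) (Q u) (P i) * D (P u) (Q u) c ≤ 0 := by
    rw [DS4_zero P Q u c hc, mul_zero]
  have h4 : D (P u) (Q u) (P i) * D (P u) (Q u) d ≤ 0 :=
    DS4_s1 _ _ _ (not_lt.1 hD) (DS4_sign P Q hN u l hl d hd)
  exact ⟨DS4_disj _ _ _ _ _ _ _ h1 h2 h3 h4, DS4_disj _ _ _ _ _ _ _ h1 h2 h4 h3⟩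

theorem DS4 (hSDD : SDD_stmt) (hTRG : TRG_stmt) (hCRS : CRS_stmt) : DS4_stmt := by
  intro ι P Q A B hN hSh x y x' y' hxy hx'y' hxx' hxy' hyx' hyy' s1 s2 s3 s4 hdis
  have memA : ∀ z : ι × Bool, fn A B z ∈ segment ℝ (P z.1) (Q z.1) ∧
      st A B z ∈ segment ℝ (P z.1) (Q z.1) := by
    intro z
    obtain ⟨c, _, _, hA, hB⟩ := hSDD ι P Q A B hSh z.1
    unfold fn st
    refine ⟨?_, ?_⟩ <;> split_ifs <;> assumption
  have memP : ∀ z : ι × Bool, fn P Q z ∈ segment ℝ (P z.1) (Q z.1) ∧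
      st P Q z ∈ segment ℝ (P z.1) (Q z.1) := by
    intro z
    have hP := left_mem_segment ℝ (P z.1) (Q z.1)
    have hQ := right_mem_segment ℝ (P z.1) (Q z.1)
    unfold fn st
    refine ⟨?_, ?_⟩ <;> split_ifs <;> assumption
  show Disjoint (segment ℝ (fn A B x) (st A B y)) (segment ℝ (fn A B x') (st A B y'))
  have hdis' : Disjoint (segment ℝ (fn P Q x) (st P Q y)) (segment ℝ (fn P Q x') (st P Q y')) :=
    hdis
  by_cases c1 : SS P Q x'.1 x.1 y'.1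
  swap
  · exact (DS4_case P Q hN x'.1 x.1 y.1 y'.1 hxx'.symm hyx'.symm hx'y' s1 c1 _ _ _ _
      (memA x).1 (memA y).2 (memA x').1 (memA y').2).1
  by_cases c2 : SS P Q y'.1 x.1 x'.1
  swap
  · exact (DS4_case P Q hN y'.1 x.1 y.1 x'.1 hxy'.symm hyy'.symm hx'y'.symm s2 c2 _ _ _ _
      (memA x).1 (memA y).2 (memA y').2 (memA x').1).2
  by_cases c3 : SS P Q x.1 x'.1 y.1
  swap
  · exact ((DS4_case P Q hN x.1 x'.1 y'.1 y.1 hxx' hxy' hxy s3 c3 _ _ _ _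
      (memA x').1 (memA y').2 (memA x).1 (memA y).2).1).symm
  by_cases c4 : SS P Q y.1 x'.1 x.1
  swap
  · exact ((DS4_case P Q hN y.1 x'.1 y'.1 x.1 hyx' hyy' hxy.symm s4 c4 _ _ _ _
      (memA x').1 (memA y').2 (memA y).2 (memA x).1).2).symm
  -- all on the same side
  have t1 := hTRG ι P Q hN x.1 y.1 x'.1 hxy hxx' hyx' (DS4_swap _ _ _ _ _ c3)
    (DS4_swap _ _ _ _ _ c4) s1 _ _ _ _ _ _ (memA x).1 (memP x).1 (memA y).2 (memP y).2
    (memA x').1 (memP x').1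
  have t2 := hTRG ι P Q hN x.1 y.1 y'.1 hxy hxy' hyy'
    (DS4_trans _ _ _ _ _ _ (DS4_swap _ _ _ _ _ c3) s3)
    (DS4_trans _ _ _ _ _ _ (DS4_swap _ _ _ _ _ c4) s4) s2 _ _ _ _ _ _ (memA x).1 (memP x).1
    (memA y).2 (memP y).2 (memA y').2 (memP y').2
  have t3 := hTRG ι P Q hN x'.1 y'.1 x.1 hx'y' hxx'.symm hxy'.symm (DS4_swap _ _ _ _ _ c1)
    (DS4_swap _ _ _ _ _ c2) s3 _ _ _ _ _ _ (memA x').1 (memP x').1 (memA y').2 (memP y').2
    (memA x).1 (memP x).1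
  have t4 := hTRG ι P Q hN x'.1 y'.1 y.1 hx'y' hyx'.symm hyy'.symm
    (DS4_trans _ _ _ _ _ _ (DS4_swap _ _ _ _ _ c1) s1)
    (DS4_trans _ _ _ _ _ _ (DS4_swap _ _ _ _ _ c2) s2) s4 _ _ _ _ _ _ (memA x').1 (memP x').1
    (memA y').2 (memP y').2 (memA y).2 (memP y).2
  have prod : ∀ u v u' v' : ℝ, 0 < u * u' → 0 < v * v' → 0 < u' * v' → 0 < u * v := by
    intro u v u' v' h1 h2 h3
    exact DS4_s2 u v' v (DS4_s2 u u' v' h1 h3) (by rw [mul_comm]; exact h2)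
  have nz : ∀ u u' : ℝ, 0 < u * u' → u' ≠ 0 := by
    rintro u u' h rfl
    rw [mul_zero] at h
    exact lt_irrefl _ h
  by_cases e1 : D (fn P Q x) (st P Q y) (fn P Q x') * D (fn P Q x) (st P Q y) (st P Q y') < 0
  · have e2 : ¬ D (fn P Q x') (st P Q y') (fn P Q x) * D (fn P Q x') (st P Q y') (st P Q y) < 0 :=
      fun h => (hCRS _ _ _ _).2 e1 h hdis'
    have e3 : 0 < D (fn P Q x') (st P Q y') (fn P Q x) * D (fn P Q x') (st P Q y') (st P Q y) :=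
      lt_of_le_of_ne (not_lt.1 e2) (mul_ne_zero (nz _ _ t3) (nz _ _ t4)).symm
    exact ((hCRS _ _ _ _).1 (prod _ _ _ _ t3 t4 e3)).symm
  · have e3 : 0 < D (fn P Q x) (st P Q y) (fn P Q x') * D (fn P Q x) (st P Q y) (st P Q y') :=
      lt_of_le_of_ne (not_lt.1 e1) (mul_ne_zero (nz _ _ t1) (nz _ _ t2)).symm
    exact (hCRS _ _ _ _).1 (prod _ _ _ _ t1 t2 e3)

end Pool.Agent.helper14.AV
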